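import Mathlib

set_option autoImplicit false

namespace Pool.Agent.Results.MP_42f001_co.Prime

open Finset

/-- `y` is a function of the vertices `x 0, …, x (k-1)`, all different from `y`. -/
def IsFunOf {V : Type} (G : SimpleGraph V) (y : V) (k : ℕ) : Prop :=
  ∃ (x : Fin k → V) (f : (Fin k → Prop) → Prop), (∀ i, x i ≠ y) ∧
    ∀ z, z ≠ y → (∀ i, z ≠ x i) → (G.Adj y z ↔ f (fun i => G.Adj (x i) z))

/-- `fun(y)` in `G`. -/
noncomputable def funV {V : Type} (G : SimpleGraph V) (y : V) : ℕ := sInf {k | IsFunOf G y k}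

/-- `fun(G) ≤ k`: every nonempty induced subgraph has a vertex of functionality at most `k`. -/
def FunLE {V : Type} (G : SimpleGraph V) (k : ℕ) : Prop :=
  ∀ S : Set V, S.Nonempty → ∃ y : S, funV (G.induce S) y ≤ k

def IsModule {V : Type} (G : SimpleGraph V) (M : Set V) : Prop :=
  ∀ z ∉ M, (∀ m ∈ M, G.Adj z m) ∨ ∀ m ∈ M, ¬ G.Adj z m

def IsPrime {V : Type} (G : SimpleGraph V) : Prop :=
  ∀ M, IsModule G M → M.Subsingleton ∨ M = Set.univ

/-- A class of finite graphs, given on the vertex sets `Fin n`, closed under taking induced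
subgraphs (up to isomorphism). -/
def Hereditary (X : ∀ n, SimpleGraph (Fin n) → Prop) : Prop :=
  ∀ (m n : ℕ) (H : SimpleGraph (Fin m)) (G : SimpleGraph (Fin n)), Nonempty (H ↪g G) → X n G → X m H

/-- Working form: `y ∈ S` is determined on `S` by a set `T` of at most `k` vertices. -/
def Det {V : Type} (G : SimpleGraph V) (S : Set V) (y : V) (T : Finset V) : Prop :=
  (∀ t ∈ T, t ∈ S ∧ t ≠ y) ∧ ∀ z ∈ S, ∀ z' ∈ S, z ≠ y → z' ≠ y → z ∉ T → z' ∉ T →
    (∀ t ∈ T, G.Adj t z ↔ G.Adj t z') → (G.Adj y z ↔ G.Adj y z')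

lemma isFun_of_det {V : Type} {G : SimpleGraph V} {S : Set V} {y : S} {T : Finset V}
    (h : Det G S y T) : IsFunOf (G.induce S) y T.card := by
  let e := T.equivFin.symm
  refine ⟨fun i => ⟨e i, (h.1 _ (e i).2).1⟩, fun p => ∃ z : S, z ≠ y ∧ z.1 ∉ T ∧
    (∀ i, p i ↔ G.Adj (e i) z) ∧ G.Adj y z, fun i hi => (h.1 _ (e i).2).2 (congrArg Subtype.val hi),
    fun z hz hz' => ?_⟩
  have hT : z.1 ∉ T := fun hh => hz' (e.symm ⟨z, hh⟩) (Subtype.ext (by simp))
  refine ⟨fun ha => ⟨z, hz, hT, fun _ => Iff.rfl, ha⟩, ?_⟩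
  rintro ⟨z', h1, h2, h3, h4⟩
  refine (h.2 z z.2 z' z'.2 (fun e => hz (Subtype.ext e)) (fun e => h1 (Subtype.ext e)) hT h2
    fun t ht => ?_).2 h4
  simpa using h3 (e.symm ⟨t, ht⟩)

lemma det_all {V : Type} [Fintype V] (G : SimpleGraph V) (S : Set V) (y : V) :
    ∃ T, Det G S y T := by
  classical
  exact ⟨univ.filter (fun t => t ∈ S ∧ t ≠ y), fun t ht => (mem_filter.1 ht).2,
    fun z h1 _ _ h2 _ h3 => absurd (mem_filter.2 ⟨mem_univ _, h1, h2⟩) h3⟩

lemma funLE_iff {V : Type} [Fintype V] (G : SimpleGraph V) (k : ℕ) :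
    FunLE G k ↔ ∀ S : Set V, S.Nonempty → ∃ y ∈ S, ∃ T, T.card ≤ k ∧ Det G S y T := by
  classical
  refine forall_congr' fun S => forall_congr' fun _ => ⟨?_, ?_⟩
  · rintro ⟨y, hy⟩
    obtain ⟨T0, h0⟩ := det_all G S y
    obtain ⟨x, f, h1, h2⟩ : IsFunOf (G.induce S) y (funV (G.induce S) y) :=
      Nat.sInf_mem (s := {k | IsFunOf (G.induce S) y k}) ⟨_, isFun_of_det h0⟩
    refine ⟨y, y.2, univ.image (fun i => (x i).1), (card_image_le.trans (by simpa using hy)), ?_, ?_⟩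
    · intro t ht
      obtain ⟨i, -, rfl⟩ := mem_image.1 ht
      exact ⟨(x i).2, fun e => h1 i (Subtype.ext e)⟩
    · intro z hz z' hz' a b c d e
      have a1 := h2 ⟨z, hz⟩ (fun e => a (congrArg Subtype.val e))
        (fun i e => c (mem_image.2 ⟨i, mem_univ _, (congrArg Subtype.val e).symm⟩))
      have a2 := h2 ⟨z', hz'⟩ (fun e => b (congrArg Subtype.val e))
        (fun i e => d (mem_image.2 ⟨i, mem_univ _, (congrArg Subtype.val e).symm⟩))
      have : (fun i => (G.induce S).Adj (x i) ⟨z, hz⟩) = fun i => (G.induce S).Adj (x i) ⟨z', hz'⟩ :=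
        funext fun i => propext (e _ (mem_image_of_mem _ (mem_univ i)))
      rw [this] at a1
      exact a1.trans a2.symm
  · rintro ⟨y, hy, T, h1, h2⟩
    exact ⟨⟨y, hy⟩, (Nat.sInf_le (isFun_of_det (y := ⟨y, hy⟩) h2)).trans h1⟩

lemma core {V : Type} [Fintype V] (G : SimpleGraph V) (k : ℕ) (S M : Set V) (hMS : M ⊆ S)
    (hM : M.Nontrivial)
    (hmod : ∀ z ∈ S, z ∉ M → (∀ m ∈ M, G.Adj z m) ∨ ∀ m ∈ M, ¬ G.Adj z m)
    (h : ∀ R ⊆ M, R.Nonempty → ∃ y ∈ R, ∃ T, T.card ≤ k ∧ Det G R y T) :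
    ∃ y ∈ S, ∃ T, T.card ≤ 3 * k + 3 ∧ Det G S y T := by
  classical
  -- a set `T ⊆ M \ {y}` is good if it determines `y` on `M` compatibly with constant patterns
  have fin : ∀ y ∈ M, ∀ T : Finset V, T.card ≤ 3 * k + 2 → Det G M y T →
      (∀ z ∈ M, z ≠ y → z ∉ T → (∀ t ∈ T, G.Adj t z) → G.Adj y z) →
      (∀ z ∈ M, z ≠ y → z ∉ T → (∀ t ∈ T, ¬ G.Adj t z) → ¬ G.Adj y z) →
      ∃ y ∈ S, ∃ T, T.card ≤ 3 * k + 3 ∧ Det G S y T := by
    intro y hy T h1 h2 h3 h4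
    obtain ⟨w, hw, hwy⟩ := hM.exists_ne y
    refine ⟨y, hMS hy, insert w T, (card_insert_le _ _).trans (by omega), ?_, ?_⟩
    · intro t ht
      rcases mem_insert.1 ht with rfl | ht
      · exact ⟨hMS hw, hwy⟩
      · exact ⟨hMS (h2.1 t ht).1, (h2.1 t ht).2⟩
    · intro z hz z' hz' a b c d e
      have c' : z ∉ T := fun h => c (mem_insert_of_mem h)
      have d' : z' ∉ T := fun h => d (mem_insert_of_mem h)
      have ew := e w (mem_insert_self _ _)
      have eT := fun t ht => e t (mem_insert_of_mem ht)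
      have hT := fun t ht => (h2.1 t ht).1
      have s := G.adj_comm
      by_cases m : z ∈ M <;> by_cases m' : z' ∈ M
      · exact h2.2 z m z' m' a b c' d' eT
      · have := hmod z' hz' m'
        have := h3 z m a c'
        have := h4 z m a c'
        grind
      · have := hmod z hz m
        have := h3 z' m' b d'
        have := h4 z' m' b d'
        grind
      · have := hmod z hz m
        have := hmod z' hz' m'
        grind
  have step : ∀ D : Finset V, (∀ t ∈ D, t ∈ M) → D.card ≤ 2 * k + 2 →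
      (∃ y ∈ S, ∃ T, T.card ≤ 3 * k + 3 ∧ Det G S y T) ∨
      ∃ y ∈ M, ∃ T : Finset V, D ⊆ T ∧ T.card ≤ D.card + k ∧ Det G M y T := by
    intro D hD hc
    by_cases hne : (M \ D).Nonempty
    · obtain ⟨y, hy, T, h1, h2⟩ := h _ Set.diff_subset hne
      refine Or.inr ⟨y, hy.1, D ∪ T, subset_union_left, (card_union_le _ _).trans (by omega), ?_, ?_⟩
      · intro t ht
        rcases mem_union.1 ht with ht | ht
        · exact ⟨hD t ht, fun e => hy.2 (e ▸ ht)⟩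
        · exact ⟨(h2.1 t ht).1.1, (h2.1 t ht).2⟩
      · intro z hz z' hz' a b c d e
        exact h2.2 z ⟨hz, fun h => c (mem_union_left _ h)⟩ z' ⟨hz', fun h => d (mem_union_left _ h)⟩
          a b (fun h => c (mem_union_right _ h)) (fun h => d (mem_union_right _ h))
          (fun t ht => e t (mem_union_right _ ht))
    · obtain ⟨y, hy⟩ := hM.nonempty
      have hall : ∀ z ∈ M, z ≠ y → z ∈ D.erase y := fun z hz a =>
        mem_erase.2 ⟨a, by_contra fun hh => hne ⟨z, hz, hh⟩⟩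
      exact Or.inl (fin y hy (D.erase y) (card_erase_le.trans (by omega))
        ⟨fun t ht => ⟨hD t (mem_of_mem_erase ht), (mem_erase.1 ht).1⟩,
          fun z hz _ _ a _ c => absurd (hall z hz a) c⟩
        (fun z hz a c => absurd (hall z hz a) c) (fun z hz a c => absurd (hall z hz a) c))
  have s := G.adj_comm
  rcases step ∅ (by simp) (by simp) with h0 | ⟨y1, m1, T1, -, c1, d1⟩
  · exact h0
  rw [card_empty, zero_add] at c1
  by_cases g1 : (∀ z ∈ M, z ≠ y1 → z ∉ T1 → (∀ t ∈ T1, G.Adj t z) → G.Adj y1 z) ∧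
      (∀ z ∈ M, z ≠ y1 → z ∉ T1 → (∀ t ∈ T1, ¬ G.Adj t z) → ¬ G.Adj y1 z)
  · exact fin y1 m1 T1 (by omega) d1 g1.1 g1.2
  have i1 := card_insert_le y1 T1
  have M1 : ∀ t ∈ insert y1 T1, t ∈ M := fun t ht => by
    rcases mem_insert.1 ht with rfl | ht
    exacts [m1, (d1.1 t ht).1]
  rcases step (insert y1 T1) M1 (by omega) with h0 | ⟨y2, m2, T2, s2, c2, d2⟩
  · exact h0
  by_cases g2 : (∀ z ∈ M, z ≠ y2 → z ∉ T2 → (∀ t ∈ T2, G.Adj t z) → G.Adj y2 z) ∧
      (∀ z ∈ M, z ≠ y2 → z ∉ T2 → (∀ t ∈ T2, ¬ G.Adj t z) → ¬ G.Adj y2 z)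
  · exact fin y2 m2 T2 (by omega) d2 g2.1 g2.2
  have i2 := card_insert_le y2 T2
  have M2 : ∀ t ∈ insert y2 T2, t ∈ M := fun t ht => by
    rcases mem_insert.1 ht with rfl | ht
    exacts [m2, (d2.1 t ht).1]
  rcases step (insert y2 T2) M2 (by omega) with h0 | ⟨y3, m3, T3, s3, c3, d3⟩
  · exact h0
  have a1 : y1 ∈ T2 := s2 (mem_insert_self _ _)
  have a2 : ∀ t ∈ T1, t ∈ T2 := fun t ht => s2 (mem_insert_of_mem ht)
  have a3 : y2 ∈ T3 := s3 (mem_insert_self _ _)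
  have a4 : ∀ t ∈ T2, t ∈ T3 := fun t ht => s3 (mem_insert_of_mem ht)
  have e1 := d1.2
  have e2 := d2.2
  -- failure gives a dominating or co-dominating set
  have dom : ∀ (y : V) (T : Finset V), Det G M y T →
      ¬ ((∀ z ∈ M, z ≠ y → z ∉ T → (∀ t ∈ T, G.Adj t z) → G.Adj y z) ∧
        (∀ z ∈ M, z ≠ y → z ∉ T → (∀ t ∈ T, ¬ G.Adj t z) → ¬ G.Adj y z)) →
      ((∃ z ∈ M, z ≠ y ∧ z ∉ T ∧ ∀ t ∈ T, G.Adj t z) ∧
        ∀ z ∈ M, z ≠ y → z ∉ T → (∀ t ∈ T, G.Adj t z) → ¬ G.Adj y z) ∨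
      ((∃ z ∈ M, z ≠ y ∧ z ∉ T ∧ ∀ t ∈ T, ¬ G.Adj t z) ∧
        ∀ z ∈ M, z ≠ y → z ∉ T → (∀ t ∈ T, ¬ G.Adj t z) → G.Adj y z) := by
    intro y T d g
    rw [not_and_or] at g
    rcases g with g | g
    · push Not at g
      obtain ⟨z, a, b, c, e, f⟩ := g
      exact Or.inl ⟨⟨z, a, b, c, e⟩, fun z' a' b' c' e' f' =>
        f ((d.2 z a z' a' b b' c c' fun t ht => iff_of_true (e t ht) (e' t ht)).2 f')⟩
    · push Not at g
      obtain ⟨z, a, b, c, e, f⟩ := g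
      exact Or.inr ⟨⟨z, a, b, c, e⟩, fun z' a' b' c' e' =>
        (d.2 z a z' a' b b' c c' fun t ht => iff_of_false (e t ht) (e' t ht)).1 f⟩
  have p1 := dom y1 T1 d1 g1
  have p2 := dom y2 T2 d2 g2
  have n1 : ∀ z, z ∉ T2 → z ≠ y1 ∧ z ∉ T1 := fun z hz => ⟨fun e => hz (e ▸ a1), fun e => hz (a2 _ e)⟩
  have n2 : ∀ z, z ∉ T3 → z ≠ y2 ∧ z ∉ T2 := fun z hz => ⟨fun e => hz (e ▸ a3), fun e => hz (a4 _ e)⟩
  rcases p1 with ⟨-, q1⟩ | ⟨-, q1⟩ <;> rcases p2 with ⟨⟨z0, b1, b2, b3, b4⟩, q2⟩ | ⟨⟨z0, b1, b2, b3, b4⟩, q2⟩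
  · exact absurd (b4 _ a1) (q1 z0 b1 (n1 _ b3).1 (n1 _ b3).2 fun t ht => b4 t (a2 t ht))
  · refine fin y3 m3 T3 (by omega) d3 (fun z m _ c e => ?_) (fun z m _ c e => ?_)
    · exact absurd (e _ (a4 _ a1)) (q1 z m (n1 _ (n2 _ c).2).1 (n1 _ (n2 _ c).2).2
        fun t ht => e t (a4 _ (a2 t ht)))
    · exact absurd (q2 z m (n2 _ c).1 (n2 _ c).2 fun t ht => e t (a4 _ ht)) (e _ a3)
  · refine fin y3 m3 T3 (by omega) d3 (fun z m _ c e => ?_) (fun z m _ c e => ?_)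
    · exact absurd (e _ a3) (q2 z m (n2 _ c).1 (n2 _ c).2 fun t ht => e t (a4 _ ht))
    · exact absurd (q1 z m (n1 _ (n2 _ c).2).1 (n1 _ (n2 _ c).2).2
        fun t ht => e t (a4 _ (a2 t ht))) (e _ (a4 _ a1))
  · exact absurd (q1 z0 b1 (n1 _ b3).1 (n1 _ b3).2 fun t ht => b4 t (a2 t ht)) (b4 _ a1)

/-- If the prime graphs of a hereditary class have bounded functionality, then so do all of
its graphs. -/
theorem result (X : ∀ n, SimpleGraph (Fin n) → Prop) (hX : Hereditary X)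
    (h : ∃ k, ∀ n G, X n G → IsPrime G → FunLE G k) : ∃ k, ∀ n G, X n G → FunLE G k := by
  classical
  obtain ⟨k, h⟩ := h
  refine ⟨3 * k + 3, fun n G hG => (funLE_iff G _).2 fun S hS => ?_⟩
  by_cases hn : S.Nontrivial
  · have hex : ∃ c, ∃ M : Set (Fin n), M ⊆ S ∧ M.Nontrivial ∧
        (∀ z ∈ S, z ∉ M → (∀ m ∈ M, G.Adj z m) ∨ ∀ m ∈ M, ¬ G.Adj z m) ∧ M.ncard = c :=
      ⟨_, S, subset_rfl, hn, fun z a b => absurd a b, rfl⟩
    obtain ⟨M, m1, m2, m3, m4⟩ := Nat.find_spec hex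
    let e : Fin (Fintype.card M) → Fin n := fun i => ((Fintype.equivFin M).symm i).1
    have he : Function.Injective e := Subtype.val_injective.comp (Equiv.injective _)
    have hr : ∀ z, z ∈ M ↔ ∃ i, e i = z := fun z =>
      ⟨fun hz => ⟨Fintype.equivFin M ⟨z, hz⟩, by simp [e]⟩, by rintro ⟨i, rfl⟩; exact Subtype.prop _⟩
    have hp : IsPrime (G.comap e) := by
      intro N hN
      by_cases h1 : N.Subsingleton
      · exact Or.inl h1
      · right
        have hsub : e '' N ⊆ M := by rintro _ ⟨i, -, rfl⟩; exact (hr _).2 ⟨i, rfl⟩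
        have := Nat.find_min' hex ⟨e '' N, hsub.trans m1,
          (Set.not_subsingleton_iff.1 h1).image he, fun z hz hz' => by
            by_cases hm : z ∈ M
            · obtain ⟨i, rfl⟩ := (hr z).1 hm
              rcases hN i (fun h => hz' ⟨i, h, rfl⟩) with a | a
              · left; rintro _ ⟨j, hj, rfl⟩; exact a j hj
              · right; rintro _ ⟨j, hj, rfl⟩; exact a j hj
            · exact (m3 z hz hm).imp (fun a m hm => a m (hsub hm)) (fun a m hm => a m (hsub hm)),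
          rfl⟩
        rw [← m4] at this
        have e2 := Set.eq_of_subset_of_ncard_le hsub this
        refine Set.eq_univ_of_forall fun i => ?_
        obtain ⟨j, hj, e3⟩ : e i ∈ e '' N := by rw [e2]; exact (hr _).2 ⟨i, rfl⟩
        exact he e3 ▸ hj
    have hf := (funLE_iff _ _).1 (h _ _ (hX _ _ _ G ⟨SimpleGraph.Embedding.comap ⟨e, he⟩ G⟩ hG) hp)
    refine core G k S M m1 m2 m3 fun R hR hne => ?_
    obtain ⟨y, hy, T, h1, h2⟩ := hf (e ⁻¹' R) (by
      obtain ⟨r, hr'⟩ := hne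
      obtain ⟨i, rfl⟩ := (hr r).1 (hR hr')
      exact ⟨i, hr'⟩)
    refine ⟨e y, hy, T.image e, card_image_le.trans h1, ?_, ?_⟩
    · intro t ht
      obtain ⟨i, hi, rfl⟩ := mem_image.1 ht
      exact ⟨(h2.1 i hi).1, fun a => (h2.1 i hi).2 (he a)⟩
    · intro z hz z' hz' a b c d f
      obtain ⟨i, rfl⟩ := (hr z).1 (hR hz)
      obtain ⟨j, rfl⟩ := (hr z').1 (hR hz')
      exact h2.2 i hz j hz' (fun x => a (x ▸ rfl)) (fun x => b (x ▸ rfl))
        (fun x => c (mem_image_of_mem _ x)) (fun x => d (mem_image_of_mem _ x))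
        (fun t ht => f _ (mem_image_of_mem _ ht))
  · obtain ⟨y, hy⟩ := hS
    exact ⟨y, hy, ∅, by simp, by simp, fun z hz _ _ a =>
      absurd (Set.not_nontrivial_iff.1 hn hz hy) a⟩

end Pool.Agent.Results.MP_42f001_co.Prime
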